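import Pool.Agent.H37.SB.Targets

/-!
Row CU: upper bound for the number of squares.
-/

set_option autoImplicit false

namespace Pool.Agent.H47.SB

open Finset Pool.Agent.H36Sq Pool.Agent.H37.SB

/-- `γ` applied to the columns -/
def colmap {ι : Type} {k : ℕ} (γ : (ι → ZMod 2) ≃+ (ι → ZMod 2)) (p : ι → Fin k → ZMod 2) :
    ι → Fin k → ZMod 2 := fun i j => γ (fun i' => p i' j) i

theorem colmap_symm {ι : Type} {k : ℕ} (γ : (ι → ZMod 2) ≃+ (ι → ZMod 2))
    (p : ι → Fin k → ZMod 2) : colmap γ.symm (colmap γ p) = p := by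
  funext i j
  unfold colmap
  have : (fun i' => γ (fun i' => p i' j) i') = γ (fun i' => p i' j) := rfl
  rw [this, AddEquiv.symm_apply_apply]

theorem colmap_symm' {ι : Type} {k : ℕ} (γ : (ι → ZMod 2) ≃+ (ι → ZMod 2))
    (p : ι → Fin k → ZMod 2) : colmap γ (colmap γ.symm p) = p := by
  funext i j
  unfold colmap
  have : (fun i' => γ.symm (fun i' => p i' j) i') = γ.symm (fun i' => p i' j) := rfl
  rw [this, AddEquiv.apply_symm_apply]

theorem ga2 {ι : Type} (γ : (ι → ZMod 2) ≃+ (ι → ZMod 2)) (a b : ι → ZMod 2) (i : ι) :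
    γ (fun i' => a i' + b i') i = γ a i + γ b i :=
  congrFun (map_add γ a b) i

theorem ga3 {ι : Type} (γ : (ι → ZMod 2) ≃+ (ι → ZMod 2)) (a b c : ι → ZMod 2) (i : ι) :
    γ (fun i' => a i' + b i' + c i') i = γ a i + γ b i + γ c i := by
  rw [ga2 γ (fun i' => a i' + b i') c, ga2]

theorem ga4 {ι : Type} (γ : (ι → ZMod 2) ≃+ (ι → ZMod 2)) (a b c e : ι → ZMod 2) (i : ι) :
    γ (fun i' => a i' + b i' + c i' + e i') i = γ a i + γ b i + γ c i + γ e i := by
  rw [ga2 γ (fun i' => a i' + b i' + c i') e, ga3]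

theorem ga8 {ι : Type} (γ : (ι → ZMod 2) ≃+ (ι → ZMod 2)) (a b c e a' b' c' e' : ι → ZMod 2)
    (i : ι) : γ (fun i' => a i' + b i' + c i' + e i' + a' i' + b' i' + c' i' + e' i') i =
      γ a i + γ b i + γ c i + γ e i + γ a' i + γ b' i + γ c' i + γ e' i := by
  rw [ga2 γ (fun i' => a i' + b i' + c i' + e i' + a' i' + b' i' + c' i') e',
    ga2 γ (fun i' => a i' + b i' + c i' + e i' + a' i' + b' i') c',
    ga2 γ (fun i' => a i' + b i' + c i' + e i' + a' i') b',
    ga2 γ (fun i' => a i' + b i' + c i' + e i') a', ga4]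

theorem col_pl1 {ι : Type} (γ : (ι → ZMod 2) ≃+ (ι → ZMod 2)) (μ : Lab ι) :
    colmap γ (fun i => pl1 (μ i)) = fun i => pl1 (colmap γ μ i) := by
  funext i j
  fin_cases j
  · rfl
  · rfl
  · exact ga3 γ _ _ _ i
  · rfl

theorem col_pl2 {ι : Type} (γ : (ι → ZMod 2) ≃+ (ι → ZMod 2)) (s : ι → ZMod 2) (μ : Lab ι) :
    colmap γ (fun i => pl2 (s i) (μ i)) = fun i => pl2 (γ s i) (colmap γ μ i) := by
  funext i j
  fin_cases j
  · exact ga4 γ (fun i => μ i 4) s (fun i => μ i 0) (fun i => μ i 1) i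
  · rfl
  · exact ga8 γ (fun i => μ i 4) (fun i => μ i 5) (fun i => μ i 6) s (fun i => μ i 0)
      (fun i => μ i 1) (fun i => μ i 2) (fun i => μ i 3) i
  · exact ga2 γ _ _ i

theorem col_pl3 {ι : Type} (γ : (ι → ZMod 2) ≃+ (ι → ZMod 2)) (s : ι → ZMod 2) (μ : Lab ι) :
    colmap γ (fun i => pl3 (s i) (μ i)) = fun i => pl3 (γ s i) (colmap γ μ i) := by
  funext i j
  fin_cases j
  · rfl
  · exact ga4 γ (fun i => μ i 5) s (fun i => μ i 2) (fun i => μ i 3) i
  · exact ga8 γ (fun i => μ i 4) (fun i => μ i 5) (fun i => μ i 6) s (fun i => μ i 0)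
      (fun i => μ i 1) (fun i => μ i 2) (fun i => μ i 3) i
  · exact ga2 γ _ _ i

theorem col_pl4 {ι : Type} (γ : (ι → ZMod 2) ≃+ (ι → ZMod 2)) (s : ι → ZMod 2) (μ : Lab ι) :
    colmap γ (fun i => pl4 (s i) (μ i)) = fun i => pl4 (γ s i) (colmap γ μ i) := by
  funext i j
  fin_cases j
  · exact ga4 γ (fun i => μ i 4) s (fun i => μ i 0) (fun i => μ i 1) i
  · exact ga4 γ (fun i => μ i 5) s (fun i => μ i 2) (fun i => μ i 3) i
  · exact ga3 γ _ _ _ i
  · exact ga4 γ (fun i => μ i 7) (fun i => μ i 0) (fun i => μ i 2) s i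

section

variable {G ι : Type} [AddCommGroup G] [Fintype ι]

theorem lab_1 (M : Form G ι) (γ : (ι → ZMod 2) ≃+ (ι → ZMod 2)) (e x y : G) :
    labPt M γ (x, y) = colmap γ (fun i => pl1 (M.lab e (x, y) i)) := by
  funext i j
  have key : ∀ k : Fin 4, ![M.m x x i, M.m y y i, M.m (x + y) (x + y) i, M.m x y i] k =
      pl1 (M.lab e (x, y) i) k := by
    intro k
    fin_cases k
    · rfl
    · rfl
    · change M.m (x + y) (x + y) i = M.m x x i + M.m y y i + (M.m x y i + M.m y x i)
      rw [M.add_left, M.add_right, M.add_right]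
      ring
    · rfl
  fin_cases j
  · rfl
  · rfl
  · change γ (M.m (x + y) (x + y)) i = γ (fun i => pl1 (M.lab e (x, y) i) 2) i
    refine congrFun (congrArg γ ?_) i
    funext i
    change M.m (x + y) (x + y) i = M.m x x i + M.m y y i + (M.m x y i + M.m y x i)
    rw [M.add_left, M.add_right, M.add_right]
    ring
  · rfl

theorem lab_2 (M : Form G ι) (γ : (ι → ZMod 2) ≃+ (ι → ZMod 2)) (e x y : G) :
    labPt M γ (x + e, y) = colmap γ (fun i => pl2 (M.m e e i) (M.lab e (x, y) i)) := by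
  funext i j
  fin_cases j
  · change γ (M.m (x + e) (x + e)) i = γ (fun i => M.m x x i + M.m e e i + M.m x e i +
      M.m e x i) i
    refine congrFun (congrArg γ ?_) i
    funext i
    rw [M.add_left, M.add_right, M.add_right]
    ring
  · rfl
  · change γ (M.m (x + e + y) (x + e + y)) i = γ (fun i => M.m x x i + M.m y y i +
      (M.m x y i + M.m y x i) + M.m e e i + M.m x e i + M.m e x i + M.m e y i + M.m y e i) i
    refine congrFun (congrArg γ ?_) i
    funext i
    simp only [M.add_left, M.add_right]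
    ring
  · change γ (M.m (x + e) y) i = γ (fun i => M.m x y i + M.m e y i) i
    refine congrFun (congrArg γ ?_) i
    funext i
    rw [M.add_left]

theorem lab_3 (M : Form G ι) (γ : (ι → ZMod 2) ≃+ (ι → ZMod 2)) (e x y : G) :
    labPt M γ (x, y + e) = colmap γ (fun i => pl3 (M.m e e i) (M.lab e (x, y) i)) := by
  funext i j
  fin_cases j
  · rfl
  · change γ (M.m (y + e) (y + e)) i = γ (fun i => M.m y y i + M.m e e i + M.m e y i +
      M.m y e i) i
    refine congrFun (congrArg γ ?_) i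
    funext i
    rw [M.add_left, M.add_right, M.add_right]
    ring
  · change γ (M.m (x + (y + e)) (x + (y + e))) i = γ (fun i => M.m x x i + M.m y y i +
      (M.m x y i + M.m y x i) + M.m e e i + M.m x e i + M.m e x i + M.m e y i + M.m y e i) i
    refine congrFun (congrArg γ ?_) i
    funext i
    simp only [M.add_left, M.add_right]
    ring
  · change γ (M.m x (y + e)) i = γ (fun i => M.m x y i + M.m x e i) i
    refine congrFun (congrArg γ ?_) i
    funext i
    rw [M.add_right]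

theorem lab_4 (M : Form G ι) (γ : (ι → ZMod 2) ≃+ (ι → ZMod 2)) (e x y : G) :
    labPt M γ (x + e, y + e) = colmap γ (fun i => pl4 (M.m e e i) (M.lab e (x, y) i)) := by
  funext i j
  fin_cases j
  · change γ (M.m (x + e) (x + e)) i = γ (fun i => M.m x x i + M.m e e i + M.m x e i +
      M.m e x i) i
    refine congrFun (congrArg γ ?_) i
    funext i
    rw [M.add_left, M.add_right, M.add_right]
    ring
  · change γ (M.m (y + e) (y + e)) i = γ (fun i => M.m y y i + M.m e e i + M.m e y i +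
      M.m y e i) i
    refine congrFun (congrArg γ ?_) i
    funext i
    rw [M.add_left, M.add_right, M.add_right]
    ring
  · change γ (M.m (x + e + (y + e)) (x + e + (y + e))) i = γ (fun i => M.m x x i + M.m y y i +
      (M.m x y i + M.m y x i)) i
    refine congrFun (congrArg γ ?_) i
    funext i
    simp only [M.add_left, M.add_right]
    have h1 := z2_add_self (M.m x e i)
    have h2 := z2_add_self (M.m e x i)
    have h3 := z2_add_self (M.m e y i)
    have h4 := z2_add_self (M.m y e i)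
    have h5 := z2_add_self (M.m e e i)
    linear_combination h1 + h2 + h3 + h4 + 2 * h5
  · change γ (M.m (x + e) (y + e)) i = γ (fun i => M.m x y i + M.m x e i + M.m e y i +
      M.m e e i) i
    refine congrFun (congrArg γ ?_) i
    funext i
    simp only [M.add_left, M.add_right]
    ring

end

theorem card_T {ι : Type} [Fintype ι] [DecidableEq ι] (γ : (ι → ZMod 2) ≃+ (ι → ZMod 2))
    (F : Finset (P4 ι)) (s : ι → ZMod 2) :
    (univ.filter (fun μ : Lab ι => colmap γ (fun i => pl1 (μ i)) ∈ F ∧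
      colmap γ (fun i => pl2 (s i) (μ i)) ∈ F ∧ colmap γ (fun i => pl3 (s i) (μ i)) ∈ F ∧
      colmap γ (fun i => pl4 (s i) (μ i)) ∈ F)).card = Nsol F (γ s) := by
  unfold Nsol
  refine Finset.card_bij (fun μ _ => colmap γ μ) ?_ ?_ ?_
  · intro μ hμ
    have h := (Finset.mem_filter.mp hμ).2
    rw [col_pl1, col_pl2, col_pl3, col_pl4] at h
    exact Finset.mem_filter.mpr ⟨Finset.mem_univ _, h⟩
  · intro μ _ μ' _ h
    rw [← colmap_symm γ μ, ← colmap_symm γ μ', h]
  · intro μ hμ
    refine ⟨colmap γ.symm μ, Finset.mem_filter.mpr ⟨Finset.mem_univ _, ?_⟩, colmap_symm' γ μ⟩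
    rw [col_pl1, col_pl2, col_pl3, col_pl4, colmap_symm']
    exact (Finset.mem_filter.mp hμ).2

theorem pf_CU : T_CU := by
  intro t ι _ _ M γ F e he
  set q : ℝ := (2 : ℝ) ^ t with hq
  have hq0 : 0 ≤ q := by positivity
  have hG : (Fintype.card (Fin (2 * t) → ZMod 2) : ℝ) = q ^ 2 := by
    rw [Fintype.card_fun, ZMod.card, Fintype.card_fin, hq]
    push_cast
    rw [← pow_mul, mul_comm]
  set T : Finset (Lab ι) := univ.filter (fun μ : Lab ι => colmap γ (fun i => pl1 (μ i)) ∈ F ∧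
      colmap γ (fun i => pl2 (M.m e e i) (μ i)) ∈ F ∧
      colmap γ (fun i => pl3 (M.m e e i) (μ i)) ∈ F ∧
      colmap γ (fun i => pl4 (M.m e e i) (μ i)) ∈ F) with hT
  have hTc : T.card = Nsol F (γ (M.m e e)) := card_T γ F (M.m e e)
  have h0 : (squareCount (ASet M γ F) e : ℝ) ≤
      ((univ.filter (fun p => M.lab e p ∈ T)).card : ℝ) := by
    unfold squareCount
    refine Nat.cast_le.mpr (Finset.card_le_card fun p hp => ?_)
    obtain ⟨x, y⟩ := p
    simp only [ASet, Finset.mem_filter, Finset.mem_univ, true_and] at hp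
    refine Finset.mem_filter.mpr ⟨Finset.mem_univ _, Finset.mem_filter.mpr ⟨Finset.mem_univ _, ?_⟩⟩
    rw [← lab_1 M γ e x y, ← lab_2 M γ e x y, ← lab_3 M γ e x y, ← lab_4 M γ e x y]
    exact ⟨hp.1, hp.2.2.1, hp.2.1, hp.2.2.2⟩
  refine h0.trans ?_
  rw [card_lab_mem]
  push_cast
  have h2 : ∀ μ ∈ T, ((univ.filter (fun p => M.lab e p = μ)).card : ℝ) ≤
        q ^ 4 / (256 : ℝ) ^ Fintype.card ι + q ^ 3 := by
    intro μ _
    have h3 := M.equi e he q hq0 hG μ
    rw [card_Lab] at h3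
    push_cast at h3
    have := (abs_le.mp h3).2
    linarith
  refine le_trans (Finset.sum_le_sum h2) ?_
  rw [Finset.sum_const, nsmul_eq_mul, hTc]
  have h5 : (Nsol F (γ (M.m e e)) : ℝ) ≤ 256 ^ Fintype.card ι := by
    rw [← hTc]
    have := Finset.card_le_univ T
    rw [card_Lab] at this
    exact_mod_cast this
  have h6 := mul_le_mul_of_nonneg_right h5 (pow_nonneg hq0 3)
  calc (Nsol F (γ (M.m e e)) : ℝ) * (q ^ 4 / (256 : ℝ) ^ Fintype.card ι + q ^ 3)
      = (Nsol F (γ (M.m e e)) : ℝ) / 256 ^ Fintype.card ι * q ^ 4 +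
        (Nsol F (γ (M.m e e)) : ℝ) * q ^ 3 := by ring
    _ ≤ _ := by linarith

end Pool.Agent.H47.SB
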