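import Pool.Agent.H37.SB.Targets

/-!
Row LIFT: a family of sets indexed by a square free set of cosets.
-/

set_option autoImplicit false

namespace Pool.Agent.H47.SB

open Finset Pool.Agent.H36Sq Pool.Agent.H37.SB

/-- the coordinates -/
def cor (η : Type) [Fintype η] (n : ℕ) [DecidableEq η] (e : η ⊕ Fin n ≃ Fin (Fintype.card η + n)) :
    (Fin (Fintype.card η + n) → ZMod 2) ≃+ (η → ZMod 2) × (Fin n → ZMod 2) where
  toFun v := (fun h => v (e (Sum.inl h)), fun j => v (e (Sum.inr j)))
  invFun w := fun k => Sum.elim w.1 w.2 (e.symm k)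
  left_inv v := by
    funext k
    obtain ⟨x, rfl⟩ := e.surjective k
    rcases x with a | b <;> simp
  right_inv w := by
    refine Prod.ext ?_ ?_
    · funext h
      simp
    · funext j
      simp
  map_add' v w := rfl

theorem fib {X Y Z : Type} [Fintype X] [DecidableEq X] [DecidableEq Y] [Fintype Z]
    (R : Finset Y) (f : X → Y) (g : X → Z) (hfg : ∀ y z, ∃ x, f x = y ∧ g x = z)
    (hinj : ∀ x x', f x = f x' → g x = g x' → x = x') (P : Y → Z → Prop)
    [∀ y, DecidablePred (P y)] [DecidablePred fun x => f x ∈ R ∧ P (f x) (g x)] :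
    (univ.filter (fun x => f x ∈ R ∧ P (f x) (g x))).card =
      ∑ r ∈ R, (univ.filter (P r)).card := by
  rw [Finset.card_eq_sum_card_fiberwise (f := f) (t := R)]
  · refine Finset.sum_congr rfl fun r hr => ?_
    refine Finset.card_bij (fun x _ => g x) ?_ ?_ ?_
    · intro x hx
      obtain ⟨h1, h2⟩ := Finset.mem_filter.mp hx
      have h3 := (Finset.mem_filter.mp h1).2.2
      rw [h2] at h3
      exact Finset.mem_filter.mpr ⟨Finset.mem_univ _, h3⟩
    · intro x hx x' hx' h
      exact hinj x x' ((Finset.mem_filter.mp hx).2.trans (Finset.mem_filter.mp hx').2.symm) h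
    · intro z hz
      obtain ⟨x, h1, h2⟩ := hfg r z
      refine ⟨x, Finset.mem_filter.mpr ⟨Finset.mem_filter.mpr ⟨Finset.mem_univ _, ?_⟩, h1⟩, h2⟩
      rw [h1, h2]
      exact ⟨hr, (Finset.mem_filter.mp hz).2⟩
  · intro x hx
    exact (Finset.mem_filter.mp hx).2.1

theorem pf_LIFT : T_LIFT := by
  classical
  intro η _ _ t R hR A
  set e := cor η (2 * t) ((Equiv.sumCongr (Fintype.equivFin η) (Equiv.refl _)).trans
    finSumFinEquiv) with he
  set f : (Fin (Fintype.card η + 2 * t) → ZMod 2) × (Fin (Fintype.card η + 2 * t) → ZMod 2) →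
    (η → ZMod 2) × (η → ZMod 2) := fun p => ((e p.1).1, (e p.2).1) with hf
  set g : (Fin (Fintype.card η + 2 * t) → ZMod 2) × (Fin (Fintype.card η + 2 * t) → ZMod 2) →
    (Fin (2 * t) → ZMod 2) × (Fin (2 * t) → ZMod 2) := fun p => ((e p.1).2, (e p.2).2) with hg
  have hfg : ∀ y z, ∃ x, f x = y ∧ g x = z := by
    intro y z
    refine ⟨(e.symm (y.1, z.1), e.symm (y.2, z.2)), ?_, ?_⟩
    · simp only [hf, AddEquiv.apply_symm_apply]
    · simp only [hg, AddEquiv.apply_symm_apply]
  have hinj : ∀ x x', f x = f x' → g x = g x' → x = x' := by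
    intro x x' h1 h2
    have h3 := Prod.ext_iff.mp h1
    have h4 := Prod.ext_iff.mp h2
    exact Prod.ext (e.injective (Prod.ext h3.1 h4.1)) (e.injective (Prod.ext h3.2 h4.2))
  refine ⟨univ.filter (fun p => f p ∈ R ∧ g p ∈ A (f p)), ?_, ?_⟩
  · rw [fib R f g hfg hinj (fun y z => z ∈ A y)]
    refine Finset.sum_congr rfl fun r _ => ?_
    congr 1
    ext z
    simp
  · intro d hd
    by_cases h1 : (e d).1 = 0
    · right
      have h2 : (e d).2 ≠ 0 := by
        intro h2
        apply hd
        have : e d = 0 := Prod.ext h1 h2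
        exact (map_eq_zero_iff e e.injective).mp this
      refine ⟨(e d).2, h2, ?_⟩
      unfold squareCount
      have key := fib R f g hfg hinj
        (fun (r : (η → ZMod 2) × (η → ZMod 2))
          (p : (Fin (2 * t) → ZMod 2) × (Fin (2 * t) → ZMod 2)) =>
          (p.1, p.2) ∈ A r ∧ (p.1, p.2 + (e d).2) ∈ A r ∧
            (p.1 + (e d).2, p.2) ∈ A r ∧ (p.1 + (e d).2, p.2 + (e d).2) ∈ A r)
      refine Eq.trans ?_ key
      congr 1
      ext p
      have e1 : ∀ v, (e (v + d)).1 = (e v).1 := by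
        intro v
        rw [map_add, Prod.fst_add, h1, add_zero]
      have e2 : ∀ v, (e (v + d)).2 = (e v).2 + (e d).2 := by
        intro v
        rw [map_add, Prod.snd_add]
      simp only [Finset.mem_filter, Finset.mem_univ, true_and, hf, hg, e1, e2]
      tauto
    · left
      unfold squareCount
      rw [Finset.card_eq_zero, Finset.filter_eq_empty_iff]
      intro p _ hp
      simp only [Finset.mem_filter, Finset.mem_univ, true_and, hf, map_add, Prod.fst_add] at hp
      exact hR (e p.1).1 (e p.2).1 (e d).1 h1 ⟨hp.1.1, hp.2.1.1, hp.2.2.1.1, hp.2.2.2.1⟩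

end Pool.Agent.H47.SB
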